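import Mathlib
import Pool.Agent.Q35.SM.Stm
import Pool.Agent.Q35.LO.Stm

/-!
Project EO (MP_18ea5f_nt, MP_1acd66_nt): the exact order of magnitude of the number of rational
points of bounded height (number fields, all big and nef classes) and the asymptotic formula of Manin
(rational numbers, anticanonical class) on smooth complete intersections of `k` divisors of type
`(1, ..., 1)` in products of `s` projective spaces.

Idea: for fixed vectors `x l`, `l ≠ i`, the vectors `x i` are the points of a lattice in boxes. If the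
lattice is generated (over `K`) by vectors of size `σ`, then the number of the lattice points in a box
`B ≥ ρ ≥ σ` is `(B / ρ) ^ (d r)` times the number for `ρ`, up to a factor `1 + O(σ / ρ)`. The other
lattices (bad fibres) have points of size `σ` in a proper subspace only, and the known bound (with a
loss of an `ε` in the exponent) for the boxes of size `τ < σ` shows that these contribute little, since
one gains `(τ / σ) ^ d` by the drop of the dimension.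
-/

set_option autoImplicit false

namespace Pool.Agent.Q35.EO

open Finset Function MvPolynomial NumberField
open Pool.Agent.Q35.MM (bx dg Pts fuj)
open Pool.Agent.Q35.SM (Cof Vs Var Pol ev pv MH Opn Cut Twr UU Smth FF)
open Pool.Agent.Q35.LO (VV)

section Boxes

variable (K : Type) [Field K] [NumberField K]

/-- The elements of the ideal `I` whose conjugates have absolute value at most `t φ * b`. -/
def S1g (I : Ideal (𝓞 K)) (t : (K →+* ℂ) → ℝ) (b : ℕ) : Set K :=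
  {x | (∃ y ∈ I, algebraMap (𝓞 K) K y = x) ∧ ∀ φ : K →+* ℂ, ‖φ x‖ ≤ t φ * b}

theorem S1g_finite (I : Ideal (𝓞 K)) (t : (K →+* ℂ) → ℝ) (b : ℕ) : (S1g K I t b).Finite := by
  refine (NumberField.Embeddings.finite_of_norm_le K ℂ (∑ φ : K →+* ℂ, |t φ| * b)).subset ?_
  rintro x ⟨⟨y, -, rfl⟩, hx⟩
  refine ⟨y.isIntegral_coe, fun φ => (hx φ).trans ?_⟩
  refine le_trans ?_ (Finset.single_le_sum (f := fun φ : K →+* ℂ => |t φ| * (b : ℝ))
    (fun φ _ => by positivity) (Finset.mem_univ φ))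
  exact mul_le_mul_of_nonneg_right (le_abs_self _) (by positivity)

/-- The vectors with coordinates in `S1g K I t b`. -/
noncomputable def bxg (I : Ideal (𝓞 K)) (t : (K →+* ℂ) → ℝ) (m b : ℕ) : Finset (Fin m → K) :=
  Fintype.piFinset fun _ => (S1g_finite K I t b).toFinset

variable {K}

theorem mem_bxg {I : Ideal (𝓞 K)} {t : (K →+* ℂ) → ℝ} {m b : ℕ} {x : Fin m → K} :
    x ∈ bxg K I t m b ↔ ∀ a, x a ∈ S1g K I t b := by
  unfold bxg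
  rw [Fintype.mem_piFinset]
  refine forall_congr' fun a => ?_
  rw [Set.Finite.mem_toFinset]

/-- The shape of a box is bounded by `c0`. -/
def Shp (c0 : ℝ) (t : (K →+* ℂ) → ℝ) : Prop := ∀ φ, 1 / c0 ≤ t φ ∧ t φ ≤ c0

end Boxes

section

open Classical in
/-- The number of the points of `V` in the box. -/
noncomputable def nug (K : Type) [Field K] [NumberField K] (I : Ideal (𝓞 K)) (t : (K →+* ℂ) → ℝ)
    (N : ℕ) (V : Submodule K (Fin N → K)) (B : ℕ) : ℕ :=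
  ((bxg K I t N B).filter fun x => x ∈ V).card

variable {K : Type} [Field K] [NumberField K] {ι : Type} [Fintype ι] [DecidableEq ι] {n : ι → ℕ}

open Classical in
/-- The points of `U` in the boxes. -/
noncomputable def FFg {k : ℕ} (c : Fin k → Cof K n) (G : Finset ι → Finset (Pol K n))
    (I : ι → Ideal (𝓞 K)) (t : ι → (K →+* ℂ) → ℝ) (b : ι → ℕ) : Finset (Vs K n) :=
  (Fintype.piFinset fun l => bxg K (I l) (t l) (n l + 1) (b l)).filter fun P => UU c G P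

open Classical in
/-- The bases of the fibres in the direction `i`: the vectors `x l`, `l ≠ i`, in the boxes, with all
the open conditions which do not contain `x i`; the `i`-th vector is `0`. -/
noncomputable def XX (G : Finset ι → Finset (Pol K n)) (I : ι → Ideal (𝓞 K))
    (t : ι → (K →+* ℂ) → ℝ) (i : ι) (b : ι → ℕ) : Finset (Vs K n) :=
  (Fintype.piFinset fun l => if l = i then {0} else bxg K (I l) (t l) (n l + 1) (b l)).filter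
    fun x => ∀ S : Finset ι, i ∉ S → Opn K (G S) x

open Classical in
/-- The number of the points of `U` in the fibre over `x` in the box `B`. -/
noncomputable def nuU {k : ℕ} (c : Fin k → Cof K n) (G : Finset ι → Finset (Pol K n))
    (I : ι → Ideal (𝓞 K)) (t : ι → (K →+* ℂ) → ℝ) (i : ι) (x : Vs K n) (B : ℕ) : ℕ :=
  ((bxg K (I i) (t i) (n i + 1) B).filter fun y => UU c G (update x i y)).card

/-- The number of the `i` for which `(n i + 1 - k) / l i` is maximal. -/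
noncomputable def mlt {ι : Type} [Fintype ι] (n : ι → ℕ) (k : ℕ) (l : ι → ℝ) : ℕ :=
  {i : ι | fuj n k l * l i = (n i : ℝ) + 1 - k}.ncard

end

/-- EO-1 (LAT): lattice points in boxes, for lattices with a `K`-basis of size `σ`. -/
def S_LAT : Prop :=
  ∀ (K : Type) [Field K] [NumberField K] (N r : ℕ) (I : Ideal (𝓞 K)) (c0 : ℝ), I ≠ ⊥ → 1 ≤ c0 →
    ∃ C : ℝ, 1 ≤ C ∧ ∀ t : (K →+* ℂ) → ℝ, Shp c0 t →
    ∀ (V : Submodule K (Fin N → K)) (σ ρ B : ℕ), Module.finrank K V = r → 1 ≤ σ →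
      V ≤ Submodule.span K {x : Fin N → K | x ∈ V ∧ x ∈ bx K N σ} → C * (σ : ℝ) ≤ ρ → ρ ≤ B →
      |(nug K I t N V B : ℝ) * (ρ : ℝ) ^ (dg K * r) -
          (nug K I t N V ρ : ℝ) * (B : ℝ) ^ (dg K * r)| ≤
        C * ((σ : ℝ) / ρ) * ((nug K I t N V ρ : ℝ) * (B : ℝ) ^ (dg K * r))

/-- EO-2 (FIB): decomposition in fibres. -/
def S_FIB : Prop :=
  ∀ (K : Type) [Field K] [NumberField K] (ι : Type) [Fintype ι] [DecidableEq ι] (n : ι → ℕ)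
    (k r : ℕ) (c : Fin k → Cof K n) (G : Finset ι → Finset (Pol K n)) (c0 : ℝ),
    2 ≤ Fintype.card ι → 1 ≤ k → k ≤ r → (∀ i, r ≤ n i + 1) → Twr k r c G → 1 ≤ c0 →
    ∃ D : ℝ, 0 ≤ D ∧ ∀ (I : ι → Ideal (𝓞 K)) (t : ι → (K →+* ℂ) → ℝ), (∀ l, Shp c0 (t l)) →
    ∀ (i : ι) (b : ι → ℕ), (∀ l, 1 ≤ b l) →
      (FFg c G I t b).card = ∑ x ∈ XX G I t i b, nuU c G I t i x (b i) ∧
      ((XX G I t i b).card : ℝ) ≤ D * ∏ l ∈ univ.erase i, (b l : ℝ) ^ (dg K * (n l + 1)) ∧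
      ∀ x ∈ XX G I t i b, Module.finrank K (VV c x i) + k = n i + 1 ∧
        ∀ B : ℕ, 1 ≤ B → nuU c G I t i x B ≤ nug K (I i) (t i) (n i + 1) (VV c x i) B ∧
          (nug K (I i) (t i) (n i + 1) (VV c x i) B : ℝ) ≤
            nuU c G I t i x B + D * (B : ℝ) ^ (dg K * (n i + 1 - r))

/-- EO-3 (ST): the sharp step. -/
def S_ST : Prop :=
  ∀ (K : Type) [Field K] [NumberField K] (ι : Type) [Fintype ι] [DecidableEq ι] (n : ι → ℕ)
    (k r : ℕ) (c : Fin k → Cof K n) (G : Finset ι → Finset (Pol K n)) (I : ι → Ideal (𝓞 K))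
    (c0 : ℝ), 2 ≤ Fintype.card ι → 1 ≤ k → k * Fintype.card ι + 1 ≤ r → (∀ i, r ≤ n i + 1) →
    Twr k r c G → (∀ l, I l ≠ ⊥) → 1 ≤ c0 →
    (∀ δ : ℝ, 0 < δ → ∃ C : ℝ, 0 ≤ C ∧ ∀ b : ι → ℕ, (∀ l, 1 ≤ b l) →
      ((FF c G b).card : ℝ) ≤
        C * (∏ l, (b l : ℝ) ^ (dg K * (n l + 1 - k))) * (∏ l, (b l : ℝ)) ^ δ) →
    ∃ θ η C : ℝ, 0 < θ ∧ θ < 1 ∧ 0 < η ∧ 0 ≤ C ∧
      ∀ t : ι → (K →+* ℂ) → ℝ, (∀ l, Shp c0 (t l)) →
      ∀ (b : ι → ℕ) (M : ℕ) (i : ι), (∀ l, 1 ≤ b l) → (∀ l, b l ≤ M) → ⌈(M : ℝ) ^ θ⌉₊ ≤ b i →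
        |((FFg c G I t b).card : ℝ) * (⌈(M : ℝ) ^ θ⌉₊ : ℝ) ^ (dg K * (n i + 1 - k)) -
          ((FFg c G I t (update b i ⌈(M : ℝ) ^ θ⌉₊)).card : ℝ) *
            (b i : ℝ) ^ (dg K * (n i + 1 - k))| ≤
          C * (M : ℝ) ^ (-η) * ((b i : ℝ) ^ (dg K * (n i + 1 - k)) *
            ((FFg c G I t (update b i ⌈(M : ℝ) ^ θ⌉₊)).card +
              ∏ l, ((update b i ⌈(M : ℝ) ^ θ⌉₊ l : ℕ) : ℝ) ^ (dg K * (n l + 1 - k))))

/-- EO-4 (DE): abstract descent (the constants are uniform in `F`). -/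
def S_DE : Prop :=
  ∀ (ι : Type) [Fintype ι] [DecidableEq ι] (E : ι → ℕ) (θ η C : ℝ) (A0 : ℕ → ℝ), 0 < θ → θ < 1 →
    0 < η → 0 ≤ C → ∃ C' η' : ℝ, 0 ≤ C' ∧ 0 < η' ∧ ∀ F : (ι → ℕ) → ℝ, (∀ b, 0 ≤ F b) →
    (∀ (b : ι → ℕ) (M : ℕ), (∀ l, b l ≤ M) → F b ≤ A0 M) →
    (∀ (b : ι → ℕ) (M : ℕ) (i : ι), (∀ l, 1 ≤ b l) → (∀ l, b l ≤ M) → ⌈(M : ℝ) ^ θ⌉₊ ≤ b i →
      |F b * (⌈(M : ℝ) ^ θ⌉₊ : ℝ) ^ E i - F (update b i ⌈(M : ℝ) ^ θ⌉₊) * (b i : ℝ) ^ E i| ≤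
        C * (M : ℝ) ^ (-η) * ((b i : ℝ) ^ E i * (F (update b i ⌈(M : ℝ) ^ θ⌉₊) +
          ∏ l, ((update b i ⌈(M : ℝ) ^ θ⌉₊ l : ℕ) : ℝ) ^ E l))) →
    ∃ R : ℝ, 0 ≤ R ∧ ∀ (b : ι → ℕ) (m : ℕ), 1 ≤ m → (∀ l, m ≤ b l) →
      |F b - R * ∏ l, (b l : ℝ) ^ E l| ≤ C' * (m : ℝ) ^ (-η') * ∏ l, (b l : ℝ) ^ E l

open Classical in
/-- EO-5 (HT): from boxes to heights, for any condition which is invariant under scaling. -/
def S_HT : Prop :=
  ∀ (K : Type) [Field K] [NumberField K] (ι : Type) [Fintype ι] [DecidableEq ι] (n : ι → ℕ) (k : ℕ)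
    (U : Vs K n → Prop), 1 ≤ Fintype.card ι → (∀ i, k ≤ n i) →
    (∀ a : ι → K, (∀ i, a i ≠ 0) → ∀ P, U P → U fun i => a i • P i) →
    (∃ C : ℝ, 0 ≤ C ∧ ∀ b : ι → ℕ, (∀ l, 1 ≤ b l) →
      ((((Fintype.piFinset fun l => bx K (n l + 1) (b l)).filter fun P => U P).card : ℕ) : ℝ) ≤
        C * ∏ l, (b l : ℝ) ^ (dg K * (n l + 1 - k))) →
    ∀ l : ι → ℝ, (∀ i, 0 < l i) → ∃ C : ℝ, ∀ T : ℝ, 1 ≤ T →
      {x : Pts K n | U (fun i => (x i).rep) ∧ ∏ i, (x i).mulHeight ^ l i ≤ T}.Finite ∧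
      (({x : Pts K n | U (fun i => (x i).rep) ∧ ∏ i, (x i).mulHeight ^ l i ≤ T}.ncard : ℕ) : ℝ) ≤
        C * T ^ fuj n k l * (1 + Real.log T) ^ (mlt n k l - 1)

/-- EO-6 (SUM2): from the scales to the number of points of bounded height (abstract), for all
weights. -/
def S_SUM2 : Prop :=
  ∀ (ι : Type) [Fintype ι] [DecidableEq ι] (X : Type) (H : ι → X → ℝ) (P : X → Prop) (r : ι → ℕ)
    (w : ι → ℝ) (a : ℝ) (J : Finset ι) (d : ℕ) (j : ι) (η c0 C : ℝ) (A B0 : ℕ),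
    (∀ l, 1 ≤ r l) → (∀ l, 0 < w l) → (∀ l, (r l : ℝ) ≤ a * w l) →
    (∀ l ∈ J, (r l : ℝ) = a * w l) → j ∈ J → 1 ≤ d → 0 < η →
    0 < c0 → (∀ l x, 1 ≤ H l x) → (∀ B : ℝ, {x | P x ∧ ∏ l, H l x ^ w l ≤ B}.Finite) →
    (∀ b : ι → ℕ, (∀ l, B0 ≤ b l) → (∀ l, 1 ≤ b l) →
      C * (∏ l ∈ univ.erase j, (b l : ℝ)) ^ A ≤ b j →
      ∃ S : Finset X, (∀ x ∈ S, P x ∧ ∀ l, (η * b l) ^ d ≤ H l x ∧ H l x ≤ (b l : ℝ) ^ d) ∧
        c0 * ∏ l, (b l : ℝ) ^ (d * r l) ≤ (S.card : ℝ)) →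
    ∃ c1 B1 : ℝ, 0 < c1 ∧ ∀ B : ℝ, B1 ≤ B →
      c1 * B ^ a * Real.log B ^ (J.card - 1) ≤
        (({x | P x ∧ ∏ l, H l x ^ w l ≤ B}.ncard : ℕ) : ℝ)

/-- EO-7 (HYP): the hyperbola method (abstract). -/
def S_HYP : Prop :=
  ∀ (ι : Type) [Fintype ι] [DecidableEq ι] (r : ι → ℕ) (f : (ι → ℕ) → ℝ) (R η C : ℝ),
    1 ≤ Fintype.card ι → (∀ l, 1 ≤ r l) → (∀ h, 0 ≤ f h) → 0 < η → 0 ≤ C →
    (∀ (b : ι → ℕ) (m : ℕ), 1 ≤ m → (∀ l, m ≤ b l) →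
      |∑ h ∈ Fintype.piFinset fun l => Icc 1 (b l), f h - R * ∏ l, (b l : ℝ) ^ r l| ≤
        C * (m : ℝ) ^ (-η) * ∏ l, (b l : ℝ) ^ r l) →
    Filter.Tendsto (fun B : ℝ => (∑ᶠ h ∈ {h : ι → ℕ | (∀ l, 1 ≤ h l) ∧ ∏ l, (h l : ℝ) ^ r l ≤ B},
        f h) / (B * Real.log B ^ (Fintype.card ι - 1))) Filter.atTop
      (nhds (R / (Fintype.card ι - 1).factorial))

open Classical in
/-- EO-8 (MOB): from the vectors to the rational points (over the rational numbers). -/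
def S_MOB : Prop :=
  ∀ (ι : Type) [Fintype ι] [DecidableEq ι] (n r : ι → ℕ) (U : Vs ℚ n → Prop) (R η C : ℝ),
    1 ≤ Fintype.card ι → (∀ l, 2 ≤ r l) → 0 < η → 0 ≤ C →
    (∀ a : ι → ℚ, (∀ i, a i ≠ 0) → ∀ P, U P → U fun i => a i • P i) →
    (∀ P, U P → ∀ i, P i ≠ 0) →
    (∀ (b : ι → ℕ) (m : ℕ), 1 ≤ m → (∀ l, m ≤ b l) →
      |((((Fintype.piFinset fun l => bx ℚ (n l + 1) (b l)).filter fun P => U P).card : ℕ) : ℝ) -
        R * ∏ l, (b l : ℝ) ^ r l| ≤ C * (m : ℝ) ^ (-η) * ∏ l, (b l : ℝ) ^ r l) →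
    ∃ c : ℝ, Filter.Tendsto (fun B : ℝ =>
      (({x : Pts ℚ n | U (fun i => (x i).rep) ∧ ∏ i, (x i).mulHeight ^ r i ≤ B}.ncard : ℕ) : ℝ) /
        (B * Real.log B ^ (Fintype.card ι - 1))) Filter.atTop (nhds c)

end Pool.Agent.Q35.EO
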