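import Mathlib
import Pool.Agent.Q35.EO.Stm

/-!
Project EO, second part: from the vectors to the rational points over number fields.

`q` is the rank of the group of units of `K`. For a nonzero vector `v` the number of the multiples
`τ v` in the box of the shape `exp ζ`, integrated over a fundamental domain of the lattice of units and
summed over representatives of the ideal classes, is `W ∑ (log (b ^ d / (N 𝔟 H(v)))) ^ q` over the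
nonzero ideals `𝔟` with `N 𝔟 H(v) ≤ b ^ d` (job UN). So the counts in the boxes of all shapes give the
asymptotic behaviour of the logarithmic means `G` of the number of the pairs `(x, 𝔟)` of a rational
point and a family of ideals, with the heights `N 𝔟 H(x)` (job GG). A Tauberian argument (job TAU), the
hyperbola method (job HYPR) and the inversion of Moebius for ideals (job MOBK) finish the proof.
-/

set_option autoImplicit false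

namespace Pool.Agent.Q35.EO

open Finset Function NumberField
open Pool.Agent.Q35.MM (bx dg Pts)
open Pool.Agent.Q35.SM (Vs)

section

variable {K : Type} [Field K] [NumberField K] {ι : Type} [Fintype ι] [DecidableEq ι] {n : ι → ℕ}

open Classical in
/-- The number of the vectors in the boxes with the property `U`. -/
noncomputable def cntg (U : Vs K n → Prop) (I : ι → Ideal (𝓞 K)) (t : ι → (K →+* ℂ) → ℝ)
    (b : ι → ℕ) : ℕ :=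
  ((Fintype.piFinset fun l => bxg K (I l) (t l) (n l + 1) (b l)).filter fun P => U P).card

omit [Fintype ι] [DecidableEq ι] in
/-- The pairs of a rational point with the property `U` and a family of nonzero ideals. -/
def YU (U : Vs K n → Prop) : Set (Pts K n × (ι → Ideal (𝓞 K))) :=
  {y | U (fun i => (y.1 i).rep) ∧ ∀ l, y.2 l ≠ ⊥}

omit [Fintype ι] [DecidableEq ι] in
/-- The heights of a pair. -/
noncomputable def hh (l : ι) (y : Pts K n × (ι → Ideal (𝓞 K))) : ℝ :=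
  (Ideal.absNorm (y.2 l) : ℝ) * (y.1 l).mulHeight

end

/-- The mean `G` of order `q`: the sum of the products of the `q`-th powers of the logarithms. -/
noncomputable def GG {ι : Type} [Fintype ι] {Y : Type} (S : Set Y) (h : ι → Y → ℝ) (q d : ℕ)
    (b : ι → ℕ) : ℝ :=
  ∑ᶠ y ∈ {y ∈ S | ∀ l, h l y ≤ (b l : ℝ) ^ d}, ∏ l, Real.log ((b l : ℝ) ^ d / h l y) ^ q

/-- EO-9 (UN): unfolding for the multiples of one vector. -/
def S_UN : Prop :=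
  ∀ (K : Type) [Field K] [NumberField K], ∃ (Ω : Type) (_ : MeasurableSpace Ω)
    (μ : MeasureTheory.Measure Ω) (R0 : Finset (Ideal (𝓞 K))) (c0 W : ℝ)
    (T : Ideal (𝓞 K) → Ω → (K →+* ℂ) → ℝ),
    MeasureTheory.IsFiniteMeasure μ ∧ 1 ≤ c0 ∧ 0 < W ∧ (∀ I ∈ R0, I ≠ ⊥) ∧
    (∀ I ∈ R0, ∀ ζ, Shp c0 (T I ζ)) ∧ (∀ I φ, Measurable fun ζ => T I ζ φ) ∧
    ∀ (m : ℕ) (v : Fin m → K), v ≠ 0 → ∀ b : ℕ, 1 ≤ b →
      ∑ I ∈ R0, ∫ ζ, (({τ : K | τ ≠ 0 ∧ τ • v ∈ bxg K I (T I ζ) m b}.ncard : ℕ) : ℝ) ∂μ =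
        W * ∑ᶠ 𝔟 ∈ {𝔟 : Ideal (𝓞 K) | 𝔟 ≠ ⊥ ∧
          (Ideal.absNorm 𝔟 : ℝ) * Height.mulHeight v ≤ (b : ℝ) ^ dg K},
          Real.log ((b : ℝ) ^ dg K / ((Ideal.absNorm 𝔟 : ℝ) * Height.mulHeight v)) ^
            Units.rank K

/-- EO-10 (GG): the asymptotic behaviour of the mean `G`. -/
def S_GG : Prop :=
  ∀ (K : Type) [Field K] [NumberField K] (ι : Type) [Fintype ι] [DecidableEq ι] (n E : ι → ℕ)
    (U : Vs K n → Prop),
    (∀ a : ι → K, (∀ i, a i ≠ 0) → ∀ P, U P → U fun i => a i • P i) →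
    (∀ P, U P → ∀ i, P i ≠ 0) →
    (∀ (I : ι → Ideal (𝓞 K)) (c0 : ℝ), (∀ l, I l ≠ ⊥) → 1 ≤ c0 → ∃ C η : ℝ, 0 ≤ C ∧ 0 < η ∧
      ∀ t : ι → (K →+* ℂ) → ℝ, (∀ l, Shp c0 (t l)) → ∃ R : ℝ, 0 ≤ R ∧
        ∀ (b : ι → ℕ) (m : ℕ), 1 ≤ m → (∀ l, m ≤ b l) →
          |(cntg U I t b : ℝ) - R * ∏ l, (b l : ℝ) ^ E l| ≤
            C * (m : ℝ) ^ (-η) * ∏ l, (b l : ℝ) ^ E l) →
    (∀ β : ℝ, {y ∈ YU U | ∀ l, hh l y ≤ β}.Finite) ∧
    ∃ R C η : ℝ, 0 ≤ R ∧ 0 ≤ C ∧ 0 < η ∧ ∀ (b : ι → ℕ) (m : ℕ), 1 ≤ m → (∀ l, m ≤ b l) →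
      |GG (YU U) hh (Units.rank K) (dg K) b - R * ∏ l, (b l : ℝ) ^ E l| ≤
        C * (m : ℝ) ^ (-η) * ∏ l, (b l : ℝ) ^ E l

/-- EO-11 (TAU): from the mean to the number (abstract). -/
def S_TAU : Prop :=
  ∀ (ι : Type) [Fintype ι] [DecidableEq ι] (Y : Type) (S : Set Y) (h : ι → Y → ℝ) (q d : ℕ)
    (r : ι → ℕ) (R C η : ℝ), 1 ≤ d → (∀ l, 1 ≤ r l) → 0 ≤ R → 0 ≤ C → 0 < η →
    (∀ l, ∀ y ∈ S, 1 ≤ h l y) → (∀ β : ℝ, {y ∈ S | ∀ l, h l y ≤ β}.Finite) →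
    (∀ (b : ι → ℕ) (m : ℕ), 1 ≤ m → (∀ l, m ≤ b l) →
      |GG S h q d b - R * ∏ l, (b l : ℝ) ^ (d * r l)| ≤
        C * (m : ℝ) ^ (-η) * ∏ l, (b l : ℝ) ^ (d * r l)) →
    ∃ R' C' η' : ℝ, 0 ≤ R' ∧ 0 ≤ C' ∧ 0 < η' ∧ ∀ (β : ι → ℝ) (m : ℝ), 1 ≤ m → (∀ l, m ≤ β l) →
      |(({y ∈ S | ∀ l, h l y ≤ β l}.ncard : ℕ) : ℝ) - R' * ∏ l, β l ^ r l| ≤
        C' * m ^ (-η') * ∏ l, β l ^ r l

/-- EO-12 (HYPR): hyperbola method for real heights (abstract). -/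
def S_HYPR : Prop :=
  ∀ (ι : Type) [Fintype ι] [DecidableEq ι] (Y : Type) (S : Set Y) (h : ι → Y → ℝ)
    (r : ι → ℕ) (R C η : ℝ), 1 ≤ Fintype.card ι → (∀ l, 1 ≤ r l) → 0 ≤ R → 0 ≤ C → 0 < η →
    (∀ l, ∀ y ∈ S, 1 ≤ h l y) → (∀ β : ℝ, {y ∈ S | ∀ l, h l y ≤ β}.Finite) →
    (∀ (β : ι → ℝ) (m : ℝ), 1 ≤ m → (∀ l, m ≤ β l) →
      |(({y ∈ S | ∀ l, h l y ≤ β l}.ncard : ℕ) : ℝ) - R * ∏ l, β l ^ r l| ≤
        C * m ^ (-η) * ∏ l, β l ^ r l) →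
    (∀ B : ℝ, {y ∈ S | ∏ l, h l y ^ r l ≤ B}.Finite) ∧
    Filter.Tendsto (fun B : ℝ => (({y ∈ S | ∏ l, h l y ^ r l ≤ B}.ncard : ℕ) : ℝ) /
      (B * Real.log B ^ (Fintype.card ι - 1))) Filter.atTop
      (nhds (R / (Fintype.card ι - 1).factorial))

/-- EO-13 (MOBK): inversion of Moebius for ideals. -/
def S_MOBK : Prop :=
  ∀ (K : Type) [Field K] [NumberField K] (ι : Type) [Fintype ι] [DecidableEq ι] (n r : ι → ℕ)
    (U : Vs K n → Prop) (R : ℝ), 1 ≤ Fintype.card ι → (∀ l, 2 ≤ r l) →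
    (∀ B : ℝ, {y ∈ YU U | ∏ l, hh l y ^ r l ≤ B}.Finite) →
    Filter.Tendsto (fun B : ℝ => (({y ∈ YU U | ∏ l, hh l y ^ r l ≤ B}.ncard : ℕ) : ℝ) /
      (B * Real.log B ^ (Fintype.card ι - 1))) Filter.atTop (nhds R) →
    ∃ c : ℝ, Filter.Tendsto (fun B : ℝ =>
      (({x : Pts K n | U (fun i => (x i).rep) ∧ ∏ i, (x i).mulHeight ^ r i ≤ B}.ncard : ℕ) : ℝ) /
        (B * Real.log B ^ (Fintype.card ι - 1))) Filter.atTop (nhds c)

end Pool.Agent.Q35.EO
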