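import Mathlib
import Pool.Agent.Q35.EO.Stm

set_option autoImplicit false

namespace Pool.Agent.Q35.EO

open Finset Function MvPolynomial
open Pool.Agent.Q35.MM (bx dg)
open Pool.Agent.Q35.SM (Cof Vs Var Pol ev pv MH Opn Cut Twr UU Smth FF)

section

variable {K : Type} [Field K] {ι : Type} [Fintype ι] [DecidableEq ι] {n : ι → ℕ}

omit [Fintype ι] in
theorem cut_mono {F : Type} [Field F] [Algebra K F] {r r' : ℕ} (h : r ≤ r') {i : ι}
    {G G' : Finset (Pol K n)} {x : Vs F n}
    (hG : ∀ y : Vs (AlgebraicClosure F) n, Opn (AlgebraicClosure F) G' y →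
      Opn (AlgebraicClosure F) G y) (hx : Cut F r' i G' x) : Cut F r i G x := by
  obtain ⟨M, hM⟩ := hx
  refine ⟨M.submatrix id (Fin.castLE h), fun z hz => ?_⟩
  set z' : Fin r' → AlgebraicClosure F := fun b => if hb : (b : ℕ) < r then z ⟨b, hb⟩ else 0 with hz'
  have hz0 : z' ≠ 0 := by
    intro h0
    apply hz
    funext b
    have h1 := congrFun h0 (Fin.castLE h b)
    rw [hz'] at h1
    simpa using h1
  have h1 := hG _ (hM z' hz0)
  have h2 : (fun a => ∑ b, algebraMap K (AlgebraicClosure F) (M a b) * z' b) =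
      fun a => ∑ b, algebraMap K (AlgebraicClosure F) (M.submatrix id (Fin.castLE h) a b) * z b := by
    funext a
    obtain ⟨e, rfl⟩ : ∃ e, r' = r + e := ⟨r' - r, by omega⟩
    rw [Fin.sum_univ_add]
    have h3 : ∑ b : Fin e, algebraMap K (AlgebraicClosure F) (M a (Fin.natAdd r b)) *
        z' (Fin.natAdd r b) = 0 := by
      refine sum_eq_zero fun b _ => ?_
      rw [hz']
      simp
    rw [h3, add_zero]
    refine sum_congr rfl fun b _ => ?_
    rw [hz']
    simp only [Matrix.submatrix_apply, id_eq, Fin.val_castAdd, Fin.is_lt, dif_pos, Fin.eta]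
    rfl
  rw [h2] at h1
  exact h1

theorem opn_mono {k r r' : ℕ} (h : r ≤ r') {c : Fin k → Cof K n}
    {G G' : Finset ι → Finset (Pol K n)} (hT : Twr k r c G) (hT' : Twr k r' c G') :
    ∀ (m : ℕ) (I : Finset ι), I ≠ univ → Fintype.card ι - I.card = m →
      ∀ (F : Type) [Field F] [Algebra K F] (x : Vs F n), Opn F (G' I) x → Opn F (G I) x := by
  intro m
  induction m with
  | zero =>
    intro I hI hm
    exfalso
    apply hI
    rw [← Finset.card_eq_iff_eq_univ]
    have := Finset.card_le_univ I
    omega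
  | succ m ih =>
    intro I hI hm F _ _ x hx
    by_cases h2 : I.card + 2 ≤ Fintype.card ι
    · rw [hT.step I h2]
      rw [hT'.step I h2] at hx
      intro i hi
      refine cut_mono h ?_ (hx i hi)
      intro y hy
      refine ih (insert i I) ?_ ?_ (AlgebraicClosure F) y hy
      · intro h3
        have h4 := card_insert_of_notMem hi
        rw [h3, Finset.card_univ] at h4
        omega
      · rw [card_insert_of_notMem hi]
        omega
    · obtain ⟨j, hj⟩ : ∃ j, j ∉ I := by
        by_contra hcon
        push Not at hcon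
        exact hI (Finset.eq_univ_iff_forall.2 hcon)
      have hIj : I = univ.erase j := by
        apply Finset.eq_of_subset_of_card_le
        · intro l hl
          refine mem_erase.2 ⟨?_, mem_univ l⟩
          rintro rfl
          exact hj hl
        · rw [card_erase_of_mem (mem_univ j), Finset.card_univ]
          omega
      rw [hIj] at hx ⊢
      rw [hT.base j F x]
      rw [hT'.base j F x] at hx
      exact hx

theorem uu_mono {k r r' : ℕ} (h : r ≤ r') {c : Fin k → Cof K n}
    {G G' : Finset ι → Finset (Pol K n)} (hT : Twr k r c G) (hT' : Twr k r' c G')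
    {P : Vs K n} (hP : UU c G' P) : UU c G P :=
  ⟨hP.1, fun I hI => opn_mono h hT hT' _ I hI rfl K P (hP.2 I hI)⟩

end

/-- The weak bound for the larger tower. -/
theorem wb_mono {K : Type} [Field K] [NumberField K] {ι : Type} [Fintype ι] [DecidableEq ι]
    {n : ι → ℕ} {k r r' : ℕ} (h : r ≤ r') {c : Fin k → Cof K n}
    {G G' : Finset ι → Finset (Pol K n)} (hT : Twr k r c G) (hT' : Twr k r' c G') (b : ι → ℕ) :
    (FF c G' b).card ≤ (FF c G b).card := by
  classical
  apply Finset.card_le_card
  intro P hP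
  unfold FF at hP ⊢
  rw [mem_filter] at hP ⊢
  exact ⟨hP.1, uu_mono h hT hT' hP.2⟩

end Pool.Agent.Q35.EO
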