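import Mathlib
import Pool.Agent.Q35.EO.Stm2
import Pool.Agent.Q35.EO.Mon
import Pool.Agent.Q35.SM.FB

set_option autoImplicit false

namespace Pool.Agent.Q35.EO

open Finset Function MvPolynomial NumberField
open Pool.Agent.Q35.MM (bx dg Pts fuj mem_bx)
open Pool.Agent.Q35.SM (Cof Vs Var Pol ev pv MH Opn Cut Twr UU Smth FF)

section

variable {K : Type} [Field K] [NumberField K]

theorem bxg_subset {I : Ideal (𝓞 K)} {t : (K →+* ℂ) → ℝ} {c0 : ℝ} (ht : Shp c0 t) {m b M : ℕ}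
    (hb : b ≤ M) : bxg K I t m b ⊆ bx K m (⌈c0⌉₊ * M) := by
  intro x hx
  rw [mem_bxg] at hx
  rw [mem_bx]
  intro a
  obtain ⟨⟨y, -, hy⟩, h2⟩ := hx a
  refine ⟨hy ▸ y.isIntegral_coe, fun φ => (h2 φ).trans ?_⟩
  have h3 : t φ ≤ ⌈c0⌉₊ := (ht φ).2.trans (Nat.le_ceil c0)
  have h4 : (b : ℝ) ≤ M := by exact_mod_cast hb
  push_cast
  exact mul_le_mul h3 h4 (by positivity) (by positivity)

omit [NumberField K] in
theorem shp_one : Shp (K := K) 1 (fun _ => 1) := fun _ => ⟨by norm_num, le_rfl⟩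

theorem bxg_top (m b : ℕ) : bxg K ⊤ (fun _ => 1) m b = bx K m b := by
  ext x
  rw [mem_bxg, mem_bx]
  refine forall_congr' fun a => ?_
  unfold S1g Pool.Agent.Q35.MM.S1
  simp only [Set.mem_setOf_eq, one_mul]
  refine and_congr_left fun _ => ?_
  constructor
  · rintro ⟨y, -, hy⟩
    exact hy ▸ y.isIntegral_coe
  · intro h
    exact ⟨⟨x a, h⟩, Submodule.mem_top, rfl⟩

variable {ι : Type} [Fintype ι] [DecidableEq ι] {n : ι → ℕ}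

theorem FFg_top {k : ℕ} (c : Fin k → Cof K n) (G : Finset ι → Finset (Pol K n)) (b : ι → ℕ) :
    FFg c G (fun _ => ⊤) (fun _ _ => 1) b = FF c G b := by
  classical
  ext P
  unfold FFg FF
  rw [mem_filter, mem_filter, Fintype.mem_piFinset, Fintype.mem_piFinset]
  simp only [bxg_top]

theorem FFg_card_le {k : ℕ} (c : Fin k → Cof K n) (G : Finset ι → Finset (Pol K n))
    (I : ι → Ideal (𝓞 K)) {t : ι → (K →+* ℂ) → ℝ} {c0 : ℝ} (ht : ∀ l, Shp c0 (t l)) {b : ι → ℕ}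
    {M : ℕ} (hb : ∀ l, b l ≤ M) :
    ((FFg c G I t b).card : ℝ) ≤ ∏ l : ι, ((bx K (n l + 1) (⌈c0⌉₊ * M)).card : ℝ) := by
  classical
  have h1 : (FFg c G I t b).card ≤ ∏ l : ι, (bx K (n l + 1) (⌈c0⌉₊ * M)).card := by
    rw [← Fintype.card_piFinset]
    apply Finset.card_le_card
    unfold FFg
    refine (Finset.filter_subset _ _).trans ?_
    intro P hP
    rw [Fintype.mem_piFinset] at hP ⊢
    exact fun l => bxg_subset (ht l) (hb l) (hP l)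
  exact_mod_cast h1

end

/-- The asymptotic formula in boxes. -/
theorem asym (hST : S_ST) (hDE : S_DE) (K : Type) [Field K] [NumberField K] (ι : Type) [Fintype ι]
    [DecidableEq ι] (n : ι → ℕ) (k r : ℕ) (c : Fin k → Cof K n) (G : Finset ι → Finset (Pol K n))
    (hι : 2 ≤ Fintype.card ι) (hk : 1 ≤ k) (hr : k * Fintype.card ι + 1 ≤ r)
    (hrn : ∀ i, r ≤ n i + 1) (hT : Twr k r c G)
    (hWB : ∀ δ : ℝ, 0 < δ → ∃ C : ℝ, 0 ≤ C ∧ ∀ b : ι → ℕ, (∀ l, 1 ≤ b l) →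
      ((FF c G b).card : ℝ) ≤
        C * (∏ l, (b l : ℝ) ^ (dg K * (n l + 1 - k))) * (∏ l, (b l : ℝ)) ^ δ)
    (I : ι → Ideal (𝓞 K)) (c0 : ℝ) (hI : ∀ l, I l ≠ ⊥) (hc0 : 1 ≤ c0) :
    ∃ C η : ℝ, 0 ≤ C ∧ 0 < η ∧ ∀ t : ι → (K →+* ℂ) → ℝ, (∀ l, Shp c0 (t l)) → ∃ R : ℝ, 0 ≤ R ∧
      ∀ (b : ι → ℕ) (m : ℕ), 1 ≤ m → (∀ l, m ≤ b l) →
        |((FFg c G I t b).card : ℝ) - R * ∏ l, (b l : ℝ) ^ (dg K * (n l + 1 - k))| ≤
          C * (m : ℝ) ^ (-η) * ∏ l, (b l : ℝ) ^ (dg K * (n l + 1 - k)) := by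
  obtain ⟨θ, η, C, hθ0, hθ1, hη, hC, hst⟩ := hST K ι n k r c G I c0 hι hk hr hrn hT hI hc0 hWB
  obtain ⟨C', η', hC', hη', hde⟩ := hDE ι (fun l => dg K * (n l + 1 - k)) θ η C
    (fun M => ∏ l : ι, ((bx K (n l + 1) (⌈c0⌉₊ * M)).card : ℝ)) hθ0 hθ1 hη hC
  refine ⟨C', η', hC', hη', fun t ht => ?_⟩
  exact hde (fun b => ((FFg c G I t b).card : ℝ)) (fun b => by positivity)
    (fun b M hb => FFg_card_le c G I ht hb) (fun b M i h1 h2 h3 => hst t ht b M i h1 h2 h3)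

/-- The sharp upper bound in boxes. -/
theorem upbox (hST : S_ST) (hDE : S_DE) (K : Type) [Field K] [NumberField K] (ι : Type) [Fintype ι]
    [DecidableEq ι] (n : ι → ℕ) (k r : ℕ) (c : Fin k → Cof K n) (G : Finset ι → Finset (Pol K n))
    (hι : 2 ≤ Fintype.card ι) (hk : 1 ≤ k) (hr : k * Fintype.card ι + 1 ≤ r)
    (hrn : ∀ i, r ≤ n i + 1) (hT : Twr k r c G)
    (hWB : ∀ δ : ℝ, 0 < δ → ∃ C : ℝ, 0 ≤ C ∧ ∀ b : ι → ℕ, (∀ l, 1 ≤ b l) →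
      ((FF c G b).card : ℝ) ≤
        C * (∏ l, (b l : ℝ) ^ (dg K * (n l + 1 - k))) * (∏ l, (b l : ℝ)) ^ δ) :
    ∃ C : ℝ, 0 ≤ C ∧ ∀ b : ι → ℕ, (∀ l, 1 ≤ b l) →
      ((FF c G b).card : ℝ) ≤ C * ∏ l, (b l : ℝ) ^ (dg K * (n l + 1 - k)) := by
  obtain ⟨C, η, hC, hη, h⟩ := asym hST hDE K ι n k r c G hι hk hr hrn hT hWB (fun _ => ⊤) 1
    (fun _ => top_ne_bot) le_rfl
  obtain ⟨R, hR, h1⟩ := h (fun _ _ => 1) (fun _ => shp_one)
  refine ⟨C + R, by linarith, fun b hb => ?_⟩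
  have h2 := h1 b 1 le_rfl hb
  rw [FFg_top, Nat.cast_one, Real.one_rpow, mul_one] at h2
  have h3 := (abs_le.1 h2).2
  linarith

/-- The weak bound for the larger tower. -/
theorem wb (hAD : Pool.Agent.Q35.MM.S_AD) (hT0 : Pool.Agent.Q35.SM.S_T)
    (hG0 : Pool.Agent.Q35.SM.S_G) (K : Type) [Field K] [NumberField K] (ι : Type) [Fintype ι]
    [DecidableEq ι] (n : ι → ℕ) (k r : ℕ) (c : Fin k → Cof K n) (G : Finset ι → Finset (Pol K n))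
    (hι : 2 ≤ Fintype.card ι) (hk : 1 ≤ k) (hr : k * Fintype.card ι ≤ r)
    (hrn : ∀ i, r ≤ n i + 1) (hT : Twr k r c G) :
    ∀ δ : ℝ, 0 < δ → ∃ C : ℝ, 0 ≤ C ∧ ∀ b : ι → ℕ, (∀ l, 1 ≤ b l) →
      ((FF c G b).card : ℝ) ≤
        C * (∏ l, (b l : ℝ) ^ (dg K * (n l + 1 - k))) * (∏ l, (b l : ℝ)) ^ δ := by
  have hks1 : 1 ≤ k * Fintype.card ι := Nat.mul_pos hk (by omega)
  obtain ⟨G1, hT1⟩ := hT0 K ι n k (k * Fintype.card ι) c hι hks1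
  intro δ hδ
  obtain ⟨C, hC, h⟩ := Pool.Agent.Q35.SM.fb hAD hG0 K ι n k c G1 hι hk
    (fun i => hr.trans (hrn i)) hT1 δ hδ
  refine ⟨C, hC, fun b hb => le_trans ?_ (h b hb)⟩
  exact_mod_cast wb_mono hr hT1 hT b

end Pool.Agent.Q35.EO
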