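import Mathlib
import Pool.Agent.Q35.EO.Stm
import Pool.Agent.Q79.SM.Nn

/-!
The existence of points in `U` for towers with any codimension `r > k` (after
`Pool.Agent.Q79.SM.Nn`).
-/

set_option autoImplicit false

namespace Pool.Agent.Q35.EO

open Finset Function MvPolynomial
open Pool.Agent.Q35.MM (bx dg S_LW)
open Pool.Agent.Q35.SM
open Pool.Agent.Q79.SM (pick finrank_VV mem_VV opn_update VV)

theorem n2 (hC : S_C) (hLW : S_LW) (K : Type) [Field K] [NumberField K] (ι : Type) [Fintype ι]
    [DecidableEq ι] (n : ι → ℕ) (k r : ℕ) (c : Fin k → Cof K n)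
    (G : Finset ι → Finset (Pol K n)) (hcard : 2 ≤ Fintype.card ι) (hkr : k < r)
    (hn : ∀ i, r ≤ n i + 1) (hT : Twr k r c G) (hx0 : ∃ x : Vs K n, Opn K (G ∅) x) :
    ∃ P : Vs K n, UU c G P := by
  classical
  obtain ⟨x, hx⟩ := hx0
  have hr1 : 1 ≤ r := by omega
  -- the claim
  have claim : ∀ J : Finset ι, J ≠ univ → ∃ P : Vs K n, ∀ I ⊆ J, Opn K (G I) P := by
    intro J
    induction J using Finset.induction_on with
    | empty =>
      intro _
      refine ⟨x, fun I hI => ?_⟩
      rw [subset_empty.1 hI]
      exact hx
    | insert i J hiJ ih =>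
      intro hne
      have hJ : J ≠ univ := by
        rintro rfl
        exact hiJ (mem_univ i)
      obtain ⟨P, hP⟩ := ih hJ
      have hcJ : J.card + 2 ≤ Fintype.card ι := by
        have h1 : (insert i J).card < Fintype.card ι := by
          rw [← card_univ]
          exact card_lt_card (ssubset_univ_iff.2 hne)
        rw [card_insert_of_notMem hiJ] at h1
        omega
      obtain ⟨y, -, hy⟩ := pick hC hLW (i := i) hr1 (hn i) J.powerset (fun I => G (insert i I))
        (fun I _ => hT.hom _) P (fun I hI => by
          rw [mem_powerset] at hI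
          have h2 : I.card + 2 ≤ Fintype.card ι := by
            have := card_le_card hI
            omega
          exact (hT.step I h2 K P).1 (hP I hI) i fun h => hiJ (hI h)) ⊤ (by
          rw [finrank_top, Module.finrank_fin_fun]
          have := hn i
          omega)
      refine ⟨update P i y, fun I hI => ?_⟩
      by_cases hiI : i ∈ I
      · have h3 := hy (I.erase i) (by
          rw [mem_powerset]
          exact subset_insert_iff.1 hI)
        rw [insert_erase hiI] at h3
        exact h3
      · rw [opn_update (hT.dep I) hiI]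
        exact hP I ((subset_insert_iff_of_notMem hiI).1 hI)
  obtain ⟨j⟩ : Nonempty ι := by
    rw [← Fintype.card_pos_iff]
    omega
  have hj : univ.erase j ≠ (univ : Finset ι) := by
    intro h
    have := mem_univ j
    rw [← h] at this
    exact notMem_erase _ _ this
  obtain ⟨P, hP⟩ := claim (univ.erase j) hj
  have hfr := finrank_VV c P j ((hT.base j K P).1 (hP _ subset_rfl))
  obtain ⟨y, hyV, hy⟩ := pick hC hLW (i := j) hr1 (hn j) (univ.erase j).ssubsets
    (fun I => G (insert j I)) (fun I _ => hT.hom _) P (fun I hI => by
      rw [mem_ssubsets] at hI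
      have h2 : I.card + 2 ≤ Fintype.card ι := by
        have h3 := card_lt_card hI
        rw [card_erase_of_mem (mem_univ j), card_univ] at h3
        omega
      exact (hT.step I h2 K P).1 (hP I hI.1) j fun h => notMem_erase _ _ (hI.1 h)) (VV c P j) (by
      have := hn j
      omega)
  rw [mem_VV] at hyV
  refine ⟨update P j y, hyV, fun I hI => ?_⟩
  by_cases hjI : j ∈ I
  · have h3 := hy (I.erase j) (by
      rw [mem_ssubsets]
      refine lt_of_le_of_ne (erase_subset_erase _ (subset_univ _)) ?_
      intro h
      apply hI
      rw [← insert_erase hjI, h, insert_erase (mem_univ j)])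
    rw [insert_erase hjI] at h3
    exact h3
  · rw [opn_update (hT.dep I) hjI]
    exact hP I fun l hl => mem_erase.2 ⟨fun h => hjI (h ▸ hl), mem_univ l⟩

end Pool.Agent.Q35.EO
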