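import Mathlib
import Pool.Agent.Q35.EO.Asy
import Pool.Agent.Q35.EO.N2
import Pool.Agent.Q35.LO.Main

set_option autoImplicit false

namespace Pool.Agent.Q35.EO

open Finset Function MvPolynomial NumberField
open Pool.Agent.Q35.MM (bx dg Pts fuj mem_bx)
open Pool.Agent.Q35.SM (Cof Vs Var Pol ev pv MH Opn Cut Twr UU Smth FF pv_smul ev_smul UU_smul
  MH_one MH_mul MH_prod)

section

variable {K : Type} [Field K] {ι : Type} [Fintype ι] [DecidableEq ι] {n : ι → ℕ}

open Classical in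
/-- The products of one polynomial from each `G I`, `I ≠ univ`. -/
noncomputable def G0 (G : Finset ι → Finset (Pol K n)) : Finset (Pol K n) :=
  (Fintype.piFinset fun I : Finset ι => if I = univ then {1} else G I).image fun f => ∏ I, f I

theorem G0_spec {G : Finset ι → Finset (Pol K n)} {g : Pol K n} (hg : g ∈ G0 G) :
    ∃ f : Finset ι → Pol K n, (∀ I, I ≠ univ → f I ∈ G I) ∧ f univ = 1 ∧ g = ∏ I, f I := by
  classical
  unfold G0 at hg
  rw [mem_image] at hg
  obtain ⟨f, hf, rfl⟩ := hg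
  rw [Fintype.mem_piFinset] at hf
  refine ⟨f, fun I hI => ?_, ?_, rfl⟩
  · have := hf I
    rwa [if_neg hI] at this
  · have := hf univ
    rw [if_pos rfl] at this
    exact mem_singleton.1 this

theorem G0_MH {G : Finset ι → Finset (Pol K n)} (hG : ∀ I, ∀ g ∈ G I, MH g) :
    ∀ g ∈ G0 G, MH g := by
  intro g hg
  obtain ⟨f, h1, h2, rfl⟩ := G0_spec hg
  refine MH_prod _ _ fun I _ => ?_
  by_cases hI : I = univ
  · rw [hI, h2]
    exact MH_one
  · exact hG I _ (h1 I hI)

theorem pv_prod {A : Type} [CommRing A] [Algebra K A] (f : Finset ι → Pol K n) (x : Vs A n) :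
    pv A (∏ I, f I) x = ∏ I, pv A (f I) x := by
  unfold pv
  rw [map_prod]

theorem G0_iff (G : Finset ι → Finset (Pol K n)) (F : Type) [Field F] [Algebra K F] (x : Vs F n) :
    Opn F (G0 G) x ↔ ∀ I, I ≠ univ → Opn F (G I) x := by
  classical
  constructor
  · rintro ⟨g, hg, hx⟩ I hI
    obtain ⟨f, h1, h2, rfl⟩ := G0_spec hg
    rw [pv_prod] at hx
    exact ⟨f I, h1 I hI, Finset.prod_ne_zero_iff.1 hx I (mem_univ I)⟩
  · intro h
    have h1 : ∀ I : Finset ι, ∃ g : Pol K n, pv F g x ≠ 0 ∧ (I ≠ univ → g ∈ G I) ∧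
        (I = univ → g = 1) := by
      intro I
      by_cases hI : I = univ
      · exact ⟨1, by simp [pv], fun h => absurd hI h, fun _ => rfl⟩
      · obtain ⟨g, hg, hg0⟩ := h I hI
        exact ⟨g, hg0, fun _ => hg, fun h => absurd h hI⟩
    choose f hf0 hf1 hf2 using h1
    refine ⟨∏ I, f I, ?_, ?_⟩
    · unfold G0
      rw [mem_image]
      refine ⟨f, ?_, rfl⟩
      rw [Fintype.mem_piFinset]
      intro I
      by_cases hI : I = univ
      · rw [if_pos hI, hf2 I hI]
        exact mem_singleton_self _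
      · rw [if_neg hI]
        exact hf1 I hI
    · rw [pv_prod]
      exact Finset.prod_ne_zero_iff.2 fun I _ => hf0 I

theorem erase_ne_univ (j : ι) : univ.erase j ≠ (univ : Finset ι) := by
  intro h
  have := mem_univ j
  rw [← h] at this
  exact notMem_erase _ _ this

theorem uu_ne_zero {k r : ℕ} {c : Fin k → Cof K n} {G : Finset ι → Finset (Pol K n)}
    (hT : Twr k r c G) (hι : 2 ≤ Fintype.card ι) (hk : 1 ≤ k) {P : Vs K n} (hP : UU c G P) :
    ∀ i, P i ≠ 0 := by
  intro i hi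
  obtain ⟨j, hj⟩ : ∃ j, j ≠ i := Fintype.exists_ne_of_one_lt_card (by omega) i
  have h2 := hP.2 (univ.erase j) (erase_ne_univ j)
  rw [hT.base j K P] at h2
  apply h2.ne_zero ⟨0, hk⟩
  funext a
  unfold ev
  refine Finset.sum_eq_zero fun b _ => ?_
  have h3 : ∏ i, update P j (Pi.single a 1) i (b i) = 0 := by
    refine Finset.prod_eq_zero (mem_univ i) ?_
    rw [update_of_ne hj.symm, hi]
    rfl
  rw [h3, mul_zero]

end

/-- The value of the threshold. -/
theorem fuj_spec {ι : Type} [Fintype ι] [Nonempty ι] (n : ι → ℕ) (k : ℕ) (hk : ∀ i, k ≤ n i)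
    (l : ι → ℝ) (hl : ∀ i, 0 < l i) :
    (∀ i, (n i : ℝ) + 1 - k ≤ fuj n k l * l i) ∧ ∃ j, fuj n k l * l j = (n j : ℝ) + 1 - k := by
  obtain ⟨j, hj⟩ := Finite.exists_max (fun i => ((n i : ℝ) + 1 - k) / l i)
  have h3 : {s : ℝ | ∀ i, 0 ≤ s * l i - ((n i : ℝ) + 1 - k)} =
      Set.Ici (((n j : ℝ) + 1 - k) / l j) := by
    ext s
    rw [Set.mem_Ici]
    constructor
    · intro h
      have h4 := h j
      rw [div_le_iff₀ (hl j)]
      linarith
    · intro h i
      have h5 : ((n i : ℝ) + 1 - k) / l i ≤ s := (hj i).trans h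
      rw [div_le_iff₀ (hl i)] at h5
      linarith
  have h6 : fuj n k l = ((n j : ℝ) + 1 - k) / l j := by
    unfold fuj
    rw [h3, csInf_Ici]
  refine ⟨fun i => ?_, j, ?_⟩
  · rw [h6]
    have := hj i
    rwa [div_le_iff₀ (hl i)] at this
  · rw [h6, div_mul_cancel₀ _ (hl j).ne']

/-- The lower bound for all classes. -/
theorem lowL (hSC : Pool.Agent.Q35.LO.S_SC) (hSUM : S_SUM2) (hNO : Pool.Agent.Q35.LO.S_NO)
    (K : Type) [Field K] [NumberField K] (ι : Type)
    [Fintype ι] [DecidableEq ι] (hι : 2 ≤ Fintype.card ι) (n : ι → ℕ) (k : ℕ) (hk : 1 ≤ k)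
    (hn : ∀ i, k + 1 ≤ n i) (c : Fin k → Cof K n) (g : Pol K n) (hg : MH g)
    (hx : ∃ x : Vs (AlgebraicClosure K) n, (∀ t, ev (AlgebraicClosure K) (c t) x = 0) ∧
      pv (AlgebraicClosure K) g x ≠ 0 ∧ ∀ j, LinearIndependent (AlgebraicClosure K)
        fun (t : Fin k) (a : Fin (n j + 1)) =>
          ev (AlgebraicClosure K) (c t) (update x j (Pi.single a 1)))
    (l : ι → ℝ) (hl : ∀ i, 0 < l i) :
    ∃ c1 B1 : ℝ, 0 < c1 ∧ ∀ B : ℝ, B1 ≤ B →
      c1 * B ^ fuj n k l * Real.log B ^ (mlt n k l - 1) ≤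
      (({x : Pts K n | ((∀ t, ev K (c t) (fun i => (x i).rep) = 0) ∧
          pv K g (fun i => (x i).rep) ≠ 0) ∧
          ∏ i, (x i).mulHeight ^ l i ≤ B}.ncard : ℕ) : ℝ) := by
  classical
  have hne : Nonempty ι := by
    rw [← Fintype.card_pos_iff]
    omega
  have hkn : ∀ i, k ≤ n i := fun i => by
    have := hn i
    omega
  obtain ⟨hf1, j, hf2⟩ := fuj_spec n k hkn l hl
  set a := fuj n k l with ha
  have hr : ∀ i, ((n i + 1 - k : ℕ) : ℝ) = (n i : ℝ) + 1 - k := by
    intro i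
    have := hkn i
    rw [Nat.cast_sub (by omega)]
    push_cast
    ring
  have ha0 : 0 < a := by
    have h1 := hf2
    have h2 : (0 : ℝ) < (n j : ℝ) + 1 - k := by
      have : (k : ℝ) ≤ n j := by exact_mod_cast hkn j
      linarith
    rw [← h1] at h2
    exact (pos_iff_pos_of_mul_pos h2).2 (hl j)
  -- finiteness
  have hfin : ∀ B : ℝ, {x : Pts K n | ((∀ t, ev K (c t) (fun i => (x i).rep) = 0) ∧
          pv K g (fun i => (x i).rep) ≠ 0) ∧ ∏ i, (x i).mulHeight ^ l i ≤ B}.Finite := by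
    intro B
    obtain ⟨e, he⟩ := Finite.exists_min l
    have hBB : ∀ x : Pts K n, ∏ i, (x i).mulHeight ^ l i ≤ B →
        ∏ i, (x i).mulHeight ^ (1 : ℕ) ≤ (max B 1) ^ (1 / l e) := by
      intro x hx
      have h1 : (∏ i, (x i).mulHeight ^ (1 : ℕ)) ^ l e ≤ ∏ i, (x i).mulHeight ^ l i := by
        rw [← Real.finsetProd_rpow _ _ (fun i _ => by
          have := (x i).one_le_mulHeight
          positivity)]
        refine Finset.prod_le_prod (fun i _ => by
          have := (x i).one_le_mulHeight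
          positivity) fun i _ => ?_
        rw [pow_one]
        exact Real.rpow_le_rpow_of_exponent_le (x i).one_le_mulHeight (he i)
      have h2 : (0 : ℝ) ≤ ∏ i, (x i).mulHeight ^ (1 : ℕ) := Finset.prod_nonneg fun i _ => by
        have := (x i).one_le_mulHeight
        positivity
      have h3 : (∏ i, (x i).mulHeight ^ (1 : ℕ)) ^ l e ≤ max B 1 :=
        h1.trans (hx.trans (le_max_left _ _))
      calc ∏ i, (x i).mulHeight ^ (1 : ℕ)
          = ((∏ i, (x i).mulHeight ^ (1 : ℕ)) ^ l e) ^ (1 / l e) := by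
            rw [← Real.rpow_mul h2, mul_one_div_cancel (hl e).ne', Real.rpow_one]
        _ ≤ (max B 1) ^ (1 / l e) :=
            Real.rpow_le_rpow (Real.rpow_nonneg h2 _) h3 (by
              have := hl e
              positivity)
    refine (hNO K ι n (fun _ => 1) (fun _ => le_rfl) ((max B 1) ^ (1 / l e))).subset ?_
    rintro x ⟨-, hx⟩
    exact hBB x hx
  obtain ⟨x0, hx1, hx2, hx3'⟩ := hx
  have hx3 := hx3' j
  -- integral coefficients
  obtain ⟨m0, hm0, hint⟩ := exists_integral_multiples ℤ ℚ (L := K)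
    (univ.biUnion fun t : Fin k => univ.image fun a : ∀ i, Fin (n i + 1) => c t a)
  have hm0K : (m0 : K) ≠ 0 := by exact_mod_cast hm0
  set c' : Fin k → Cof K n := fun t a => (m0 : K) * c t a with hc'
  have hint' : ∀ t a, IsIntegral ℤ (c' t a) := by
    intro t a
    have h := hint (c t a) (by
      rw [mem_biUnion]
      exact ⟨t, mem_univ _, mem_image_of_mem _ (mem_univ a)⟩)
    rwa [zsmul_eq_mul] at h
  have hev : ∀ (A : Type) [CommRing A] [Algebra K A] (t : Fin k) (x : Vs A n),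
      ev A (c' t) x = algebraMap K A (m0 : K) * ev A (c t) x := by
    intro A _ _ t x
    rw [hc']
    exact Pool.Agent.Q35.LO.ev_mul _ _ _
  have hm0A : algebraMap K (AlgebraicClosure K) (m0 : K) ≠ 0 := by
    rw [Ne, map_eq_zero]
    exact hm0K
  obtain ⟨J, hJ⟩ : ∃ J : Fin k → Fin (n j + 1), Pool.Agent.Q35.LO.mnr c' x0 j J ≠ 0 := by
    have h1 : LinearIndependent (AlgebraicClosure K)
        (fun t => Pool.Agent.Q35.LO.lf c' x0 j t) := by
      have h2 := hx3.units_smul (fun _ => Units.mk0 _ hm0A)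
      convert h2 using 1
      funext t a
      simp only [Pool.Agent.Q35.LO.lf, Pi.smul_apply']
      rw [hev]
      rfl
    obtain ⟨J, hJ⟩ := Pool.Agent.Q298.SM.exists_minor
      (Matrix.of (Pool.Agent.Q35.LO.lf c' x0 j)) h1
    exact ⟨J, hJ⟩
  obtain ⟨η, c0, C, A, B0, hη, hc0, hS⟩ := hSC K ι n k c' j g J hint' hι hk hn hg
    ⟨x0, fun t => by rw [hev, hx1 t, mul_zero], hx2, hJ⟩
  set Jx : Finset ι := univ.filter fun i => a * l i = (n i : ℝ) + 1 - k with hJx
  have hmlt : mlt n k l = Jx.card := by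
    unfold mlt
    rw [hJx, ← Set.ncard_coe_finset]
    congr 1
    ext i
    simp only [Set.mem_setOf_eq, Finset.coe_filter, mem_univ, true_and, ha]
  obtain ⟨c1, B1, hc1, h⟩ := hSUM ι (Pts K n) (fun l x => (x l).mulHeight)
    (fun x => (∀ t, ev K (c t) (fun i => (x i).rep) = 0) ∧ pv K g (fun i => (x i).rep) ≠ 0)
    (fun i => n i + 1 - k) l a Jx (dg K) j η c0 C A B0 (fun l => by have := hn l; omega)
    hl (fun i => by rw [hr]; exact hf1 i)
    (fun i hi => by rw [hr]; exact ((Finset.mem_filter.1 hi).2).symm)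
    (Finset.mem_filter.2 ⟨mem_univ _, hf2⟩)
    Module.finrank_pos hη hc0 (fun l x => (x l).one_le_mulHeight) hfin (by
      intro b hb0 hb1 hb
      obtain ⟨S, hS1, hS2⟩ := hS b hb0 hb1 hb
      refine ⟨S, fun x hx => ?_, hS2⟩
      obtain ⟨h1, h2, h3⟩ := hS1 x hx
      refine ⟨⟨fun t => ?_, h2⟩, h3⟩
      have h4 := h1 t
      rw [hev] at h4
      exact (mul_eq_zero.mp h4).resolve_left (by simpa using hm0K))
  rw [← hmlt] at h
  exact ⟨c1, B1, hc1, h⟩

end Pool.Agent.Q35.EO
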