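import Mathlib
import Pool.Agent.Q35.EO.Main

set_option autoImplicit false

namespace Pool.Agent.Q35.EO

open Finset Function MvPolynomial NumberField
open Pool.Agent.Q35.MM (bx dg Pts fuj mem_bx)
open Pool.Agent.Q35.SM (Cof Vs Var Pol ev pv MH Opn Cut Twr UU Smth FF pv_smul ev_smul UU_smul
  MH_one MH_mul MH_prod)

section

variable {K : Type} [Field K] {ι : Type} [Fintype ι] [DecidableEq ι] {n : ι → ℕ}

/-- The point is in the open subset of `X` given by the finite set `A` of polynomials. -/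
def In {k : ℕ} (c : Fin k → Cof K n) (A : Finset (Pol K n)) (x : Pts K n) : Prop :=
  (∀ t, ev K (c t) (fun i => (x i).rep) = 0) ∧ ∃ g ∈ A, pv K g (fun i => (x i).rep) ≠ 0

theorem in_iff {k : ℕ} (c : Fin k → Cof K n) (G : Finset ι → Finset (Pol K n)) (x : Pts K n) :
    In c (G0 G) x ↔ UU c G (fun i => (x i).rep) := by
  unfold In UU
  rw [← G0_iff G K]
  rfl

end

/-- The tower. -/
theorem tower (hT0 : Pool.Agent.Q35.SM.S_T) (hD : Pool.Agent.Q35.SM.S_D)
    (hE : Pool.Agent.Q35.SM.S_E) (hF : Pool.Agent.Q35.SM.S_F) (hC : Pool.Agent.Q35.SM.S_C)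
    (hLW : Pool.Agent.Q35.MM.S_LW) (K : Type) [Field K] [NumberField K] (ι : Type)
    [Fintype ι] [DecidableEq ι] (hι : 2 ≤ Fintype.card ι) (n : ι → ℕ) (k : ℕ) (hk : 1 ≤ k)
    (hn : ∀ i, k * Fintype.card ι * (Fintype.card ι - 1) + k ≤ n i + 1)
    (c : Fin k → Cof K n) (hc : Smth c) :
    (∀ i, k * Fintype.card ι + 1 ≤ n i + 1) ∧ (∀ i, k + 1 ≤ n i) ∧
    ∃ G : Finset ι → Finset (Pol K n), Twr k (k * Fintype.card ι + 1) c G ∧
      ∃ P : Vs K n, UU c G P := by
  set s := Fintype.card ι with hs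
  have hrn : ∀ i, k * s + 1 ≤ n i + 1 := by
    intro i
    refine le_trans ?_ (hn i)
    obtain ⟨s', hs'⟩ : ∃ s', s = s' + 2 := ⟨s - 2, by omega⟩
    rw [hs']
    have e1 : s' + 2 - 1 = s' + 1 := by omega
    rw [e1]
    nlinarith [Nat.zero_le (k * s'), Nat.zero_le (k * s' * s')]
  have hkn : ∀ i, k + 1 ≤ n i := by
    intro i
    have h1 := hrn i
    have h2 : k * 2 ≤ k * s := Nat.mul_le_mul_left _ hι
    omega
  refine ⟨hrn, hkn, ?_⟩
  obtain ⟨G, hTw⟩ := hT0 K ι n k (k * s + 1) c hι (by omega)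
  have h0 : ∃ x : Vs K n, Opn K (G ∅) x := by
    by_contra hcon
    push Not at hcon
    obtain ⟨j, F, _, _, x, μ, B, hμ, hy, hBj, hBl, hind⟩ :=
      hD K ι n k (k * s + 1) c G hTw hι (by omega) hrn hcon
    obtain ⟨z, hz0, hz1, hz2⟩ := hE K ι n k (k * s + 1) c j F x μ B (by omega) hrn hμ hy hBj hBl
      hind (by
        have := hn j
        rw [← hs]
        have e : (s - 1) * (k * s + 1 - 1) = k * s * (s - 1) := by
          rw [Nat.add_sub_cancel]
          ring
        omega)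
    exact hF K ι n k c F z μ hμ hz0 hz1 hz2 hc
  have hks : k * 2 ≤ k * s := Nat.mul_le_mul_left _ hι
  exact ⟨G, hTw, n2 hC hLW K ι n k (k * s + 1) c G hι (by omega) hrn hTw h0⟩

/-- A point of `X` over `K`. -/
theorem pt {K : Type} [Field K] {ι : Type} [Fintype ι] [DecidableEq ι] {n : ι → ℕ} {k r : ℕ}
    {c : Fin k → Cof K n} {G : Finset ι → Finset (Pol K n)} (hT : Twr k r c G)
    (hι : 2 ≤ Fintype.card ι) (hk : 1 ≤ k) {P : Vs K n} (hP : UU c G P) :
    ∃ x : Pts K n, In c (G0 G) x := by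
  have hP0 := uu_ne_zero hT hι hk hP
  have h1 : ∀ i, ∃ a : K, a ≠ 0 ∧ a • P i = (Projectivization.mk K (P i) (hP0 i)).rep := by
    intro i
    obtain ⟨a, ha⟩ := Projectivization.exists_smul_eq_mk_rep K (P i) (hP0 i)
    exact ⟨a, Units.ne_zero a, by rw [← ha]; rfl⟩
  choose a ha0 ha using h1
  refine ⟨fun i => Projectivization.mk K (P i) (hP0 i), ?_⟩
  rw [in_iff]
  have h2 : (fun i => (Projectivization.mk K (P i) (hP0 i)).rep) = fun i => a i • P i := by
    funext i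
    exact (ha i).symm
  rw [h2]
  exact UU_smul c G hT.hom a ha0 P hP

/-- The exact order of magnitude for all classes and the asymptotic formula for the anticanonical
class. -/
theorem main (hAD : Pool.Agent.Q35.MM.S_AD) (hT0 : Pool.Agent.Q35.SM.S_T)
    (hD : Pool.Agent.Q35.SM.S_D) (hE : Pool.Agent.Q35.SM.S_E) (hF : Pool.Agent.Q35.SM.S_F)
    (hC : Pool.Agent.Q35.SM.S_C) (hLW : Pool.Agent.Q35.MM.S_LW) (hG0 : Pool.Agent.Q35.SM.S_G)
    (hST : S_ST) (hDE : S_DE) (hHT : S_HT) (hSC : Pool.Agent.Q35.LO.S_SC) (hSUM : S_SUM2)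
    (hNO : Pool.Agent.Q35.LO.S_NO) (K : Type) [Field K] [NumberField K] (ι : Type)
    [Fintype ι] [DecidableEq ι] (hι : 2 ≤ Fintype.card ι) (n : ι → ℕ) (k : ℕ) (hk : 1 ≤ k)
    (hn : ∀ i, k * Fintype.card ι * (Fintype.card ι - 1) + k ≤ n i + 1)
    (c : Fin k → Cof K n) (hc : Smth c) :
    ∃ A : Finset (Pol K n), (∀ g ∈ A, MH g) ∧ (∃ x : Pts K n, In c A x) ∧
      (∀ l : ι → ℝ, (∀ i, 0 < l i) → ∃ C : ℝ, ∀ T : ℝ, 1 ≤ T →
        {x : Pts K n | In c A x ∧ ∏ i, (x i).mulHeight ^ l i ≤ T}.Finite ∧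
        (({x : Pts K n | In c A x ∧ ∏ i, (x i).mulHeight ^ l i ≤ T}.ncard : ℕ) : ℝ) ≤
          C * T ^ fuj n k l * (1 + Real.log T) ^ (mlt n k l - 1)) ∧
      (∀ h : Pol K n, MH h →
        (∃ x : Vs (AlgebraicClosure K) n, (∀ t, ev (AlgebraicClosure K) (c t) x = 0) ∧
          ∃ g ∈ A, pv (AlgebraicClosure K) (g * h) x ≠ 0) →
        ∀ l : ι → ℝ, (∀ i, 0 < l i) → ∃ c1 B1 : ℝ, 0 < c1 ∧ ∀ B : ℝ, B1 ≤ B →
          c1 * B ^ fuj n k l * Real.log B ^ (mlt n k l - 1) ≤
            (({x : Pts K n | (In c A x ∧ pv K h (fun i => (x i).rep) ≠ 0) ∧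
              ∏ i, (x i).mulHeight ^ l i ≤ B}.ncard : ℕ) : ℝ)) ∧
      (S_GG → S_TAU → S_HYPR → S_MOBK → ∃ c2 : ℝ, 0 < c2 ∧ Filter.Tendsto (fun B : ℝ =>
        (({x : Pts K n | In c A x ∧ ∏ i, (x i).mulHeight ^ (n i + 1 - k) ≤ B}.ncard : ℕ) : ℝ) /
          (B * Real.log B ^ (Fintype.card ι - 1))) Filter.atTop (nhds c2)) := by
  classical
  obtain ⟨hrn, hkn, G, hT, P, hP⟩ := tower hT0 hD hE hF hC hLW K ι hι n k hk hn c hc
  have hne : Nonempty ι := by
    rw [← Fintype.card_pos_iff]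
    omega
  have hkn' : ∀ i, k ≤ n i := fun i => by
    have := hkn i
    omega
  have hWB := wb hAD hT0 hG0 K ι n k _ c G hι hk (Nat.le_succ _) hrn hT
  have hlow : ∀ h : Pol K n, MH h →
        (∃ x : Vs (AlgebraicClosure K) n, (∀ t, ev (AlgebraicClosure K) (c t) x = 0) ∧
          ∃ g ∈ G0 G, pv (AlgebraicClosure K) (g * h) x ≠ 0) →
        ∀ l : ι → ℝ, (∀ i, 0 < l i) → ∃ c1 B1 : ℝ, 0 < c1 ∧ ∀ B : ℝ, B1 ≤ B →
          c1 * B ^ fuj n k l * Real.log B ^ (mlt n k l - 1) ≤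
            (({x : Pts K n | (In c (G0 G) x ∧ pv K h (fun i => (x i).rep) ≠ 0) ∧
              ∏ i, (x i).mulHeight ^ l i ≤ B}.ncard : ℕ) : ℝ) := by
    intro h hh hx l hl
    obtain ⟨x, hx1, g, hg, hx2⟩ := hx
    have hgx : pv (AlgebraicClosure K) g x ≠ 0 := by
      intro h0
      apply hx2
      unfold pv at h0 ⊢
      rw [map_mul, h0, zero_mul]
    have hind : ∀ j, LinearIndependent (AlgebraicClosure K)
        fun (t : Fin k) (a : Fin (n j + 1)) =>
          ev (AlgebraicClosure K) (c t) (update x j (Pi.single a 1)) := by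
      intro j
      rw [← hT.base j (AlgebraicClosure K) x]
      exact (G0_iff G (AlgebraicClosure K) x).1 ⟨g, hg, hgx⟩ _ (erase_ne_univ j)
    obtain ⟨c1, B1, hc1, h1⟩ := lowL hSC hSUM hNO K ι hι n k hk hkn c (g * h)
      (MH_mul (G0_MH hT.hom g hg) hh) ⟨x, hx1, hx2, hind⟩ l hl
    refine ⟨c1, B1, hc1, fun B hB => (h1 B hB).trans ?_⟩
    have hsub : {x : Pts K n | ((∀ t, ev K (c t) (fun i => (x i).rep) = 0) ∧
          pv K (g * h) (fun i => (x i).rep) ≠ 0) ∧ ∏ i, (x i).mulHeight ^ l i ≤ B} ⊆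
        {x : Pts K n | (In c (G0 G) x ∧ pv K h (fun i => (x i).rep) ≠ 0) ∧
              ∏ i, (x i).mulHeight ^ l i ≤ B} := by
      rintro y ⟨⟨hy1, hy2⟩, hy3⟩
      have hy4 : pv K g (fun i => (y i).rep) ≠ 0 ∧ pv K h (fun i => (y i).rep) ≠ 0 := by
        unfold pv at hy2 ⊢
        rw [map_mul] at hy2
        exact mul_ne_zero_iff.1 hy2
      exact ⟨⟨⟨hy1, g, hg, hy4.1⟩, hy4.2⟩, hy3⟩
    have hup : ∃ C : ℝ, ∀ T : ℝ, 1 ≤ T →
        {x : Pts K n | UU c G (fun i => (x i).rep) ∧ ∏ i, (x i).mulHeight ^ l i ≤ T}.Finite ∧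
        (({x : Pts K n | UU c G (fun i => (x i).rep) ∧
          ∏ i, (x i).mulHeight ^ l i ≤ T}.ncard : ℕ) : ℝ) ≤
          C * T ^ fuj n k l * (1 + Real.log T) ^ (mlt n k l - 1) := by
      refine hHT K ι n k (UU c G) (by omega) hkn'
        (fun a ha P hP => UU_smul c G hT.hom a ha P hP) ?_ l hl
      obtain ⟨C, hC, h⟩ := upbox hST hDE K ι n k _ c G hι hk le_rfl hrn hT hWB
      refine ⟨C, hC, fun b hb => ?_⟩
      convert h b hb using 3
      ext Q
      unfold FF
      simp only [Finset.mem_filter]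
    obtain ⟨C, hC⟩ := hup
    have hfin : {x : Pts K n | (In c (G0 G) x ∧ pv K h (fun i => (x i).rep) ≠ 0) ∧
              ∏ i, (x i).mulHeight ^ l i ≤ B}.Finite := by
      refine ((hC (max B 1) (le_max_right _ _)).1).subset ?_
      rintro y ⟨⟨hy1, -⟩, hy3⟩
      exact ⟨(in_iff c G y).1 hy1, hy3.trans (le_max_left _ _)⟩
    exact_mod_cast Set.ncard_le_ncard hsub hfin
  refine ⟨G0 G, G0_MH hT.hom, pt hT hι hk hP, fun l hl => ?_, hlow, ?_⟩
  · obtain ⟨C, hC, h⟩ := upbox hST hDE K ι n k _ c G hι hk le_rfl hrn hT hWB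
    have := hHT K ι n k (UU c G) (by omega) hkn'
      (fun a ha P hP => UU_smul c G hT.hom a ha P hP) ⟨C, hC, fun b hb => by
        convert h b hb using 3
        ext Q
        unfold FF
        simp only [Finset.mem_filter]⟩ l hl
    simpa only [in_iff] using this
  · intro hGG hTAU hHYPR hMOBK
    have hdg : 1 ≤ dg K := Module.finrank_pos
    obtain ⟨hfin, R, C, η, hR, hC0, hη, hgg⟩ := hGG K ι n (fun l => dg K * (n l + 1 - k))
      (UU c G) (fun a ha P hP => UU_smul c G hT.hom a ha P hP)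
      (fun P hP => uu_ne_zero hT hι hk hP) (fun I c0 hI hc0 => by
        obtain ⟨C, η, h1, h2, h3⟩ := asym hST hDE K ι n k _ c G hι hk le_rfl hrn hT hWB I c0 hI hc0
        refine ⟨C, η, h1, h2, fun t ht => ?_⟩
        obtain ⟨R, h4, h5⟩ := h3 t ht
        refine ⟨R, h4, fun b m hm hb => ?_⟩
        have h6 := h5 b m hm hb
        convert h6 using 5
        unfold cntg FFg
        congr 2)
    have hh1 : ∀ l, ∀ y ∈ YU (UU c G), 1 ≤ hh (K := K) (n := n) l y := by
      intro l y hy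
      unfold hh
      have h1 : (1 : ℝ) ≤ Ideal.absNorm (y.2 l) := by
        have h2 : Ideal.absNorm (y.2 l) ≠ 0 := by
          rw [Ne, Ideal.absNorm_eq_zero_iff]
          exact hy.2 l
        exact_mod_cast Nat.one_le_iff_ne_zero.2 h2
      have h3 : 1 ≤ (y.1 l).mulHeight := (y.1 l).one_le_mulHeight
      nlinarith
    obtain ⟨R', C', η', hR', hC', hη', htau⟩ := hTAU ι _ (YU (UU c G)) hh (Units.rank K) (dg K)
      (fun l => n l + 1 - k) R C η hdg (fun l => by have := hkn l; omega) hR hC0 hη hh1 hfin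
      (fun b m hm hb => hgg b m hm hb)
    obtain ⟨hfin2, hlim⟩ := hHYPR ι _ (YU (UU c G)) hh (fun l => n l + 1 - k) R' C' η'
      (by omega) (fun l => by have := hkn l; omega) hR' hC' hη' hh1 hfin htau
    obtain ⟨c2, hc2⟩ := hMOBK K ι n (fun l => n l + 1 - k) (UU c G) _ (by omega)
      (fun l => by have := hkn l; omega) hfin2 hlim
    have hc3 : Filter.Tendsto (fun B : ℝ =>
        (({x : Pts K n | In c (G0 G) x ∧ ∏ i, (x i).mulHeight ^ (n i + 1 - k) ≤ B}.ncard : ℕ) :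
          ℝ) / (B * Real.log B ^ (Fintype.card ι - 1))) Filter.atTop (nhds c2) := by
      simpa only [in_iff] using hc2
    refine ⟨c2, ?_, hc3⟩
    -- positivity
    obtain ⟨x0, hx0⟩ := pt hT hι hk hP
    obtain ⟨c1, B1, hc1, hl1⟩ := hlow 1 MH_one (by
      obtain ⟨h1, g, hg, h2⟩ := hx0
      refine ⟨fun i a => algebraMap K (AlgebraicClosure K) ((x0 i).rep a), fun t => ?_, g, hg, ?_⟩
      · have h3 := h1 t
        unfold ev at h3 ⊢
        have h4 := congrArg (algebraMap K (AlgebraicClosure K)) h3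
        rw [map_sum, map_zero] at h4
        simpa only [map_mul, map_prod, Algebra.algebraMap_self, RingHom.id_apply] using h4
      · rw [mul_one]
        intro h3
        apply h2
        unfold pv at h3 ⊢
        have h4 : aeval (fun v : Var n => algebraMap K (AlgebraicClosure K)
            ((x0 v.1).rep v.2)) g = algebraMap K (AlgebraicClosure K)
            (aeval (fun v : Var n => (x0 v.1).rep v.2) g) := by
          exact MvPolynomial.aeval_algebraMap_apply (AlgebraicClosure K)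
            (fun v : Var n => (x0 v.1).rep v.2) g
        have h3' : aeval (fun v : Var n => algebraMap K (AlgebraicClosure K)
            ((x0 v.1).rep v.2)) g = 0 := h3
        rw [h4, map_eq_zero] at h3'
        exact h3') (fun i => ((n i + 1 - k : ℕ) : ℝ)) (fun i => by
          have := hkn' i
          exact_mod_cast (by omega : 0 < n i + 1 - k))
    rw [Pool.Agent.Q35.LO.fuj_one hne n k hkn'] at hl1
    have hmlt : mlt n k (fun i => ((n i + 1 - k : ℕ) : ℝ)) = Fintype.card ι := by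
      unfold mlt
      have h1 : {i : ι | fuj n k (fun i => ((n i + 1 - k : ℕ) : ℝ)) * ((n i + 1 - k : ℕ) : ℝ) =
          (n i : ℝ) + 1 - k} = Set.univ := by
        ext i
        rw [Pool.Agent.Q35.LO.fuj_one hne n k hkn']
        simp only [one_mul, Set.mem_univ, iff_true, Set.mem_setOf_eq]
        have := hkn' i
        rw [Nat.cast_sub (by omega)]
        push_cast
        ring
      rw [h1, Set.ncard_univ, Nat.card_eq_fintype_card]
    have h5 : c1 ≤ c2 := by
      refine ge_of_tendsto hc3 ?_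
      filter_upwards [Filter.eventually_ge_atTop B1, Filter.eventually_gt_atTop (1 : ℝ)] with B hB
        hB1
      have h6 := hl1 B hB
      have hlog : 0 < Real.log B := Real.log_pos hB1
      rw [le_div_iff₀ (by positivity), ← mul_assoc]
      rw [Real.rpow_one, hmlt] at h6
      refine h6.trans ?_
      have h7 : {x : Pts K n | (In c (G0 G) x ∧ pv K (1 : Pol K n) (fun i => (x i).rep) ≠ 0) ∧
          ∏ i, (x i).mulHeight ^ (((n i + 1 - k : ℕ) : ℝ)) ≤ B} =
          {x : Pts K n | In c (G0 G) x ∧ ∏ i, (x i).mulHeight ^ (n i + 1 - k) ≤ B} := by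
        ext x
        simp only [Real.rpow_natCast, Set.mem_setOf_eq]
        unfold pv
        simp
      rw [h7]
    linarith

end Pool.Agent.Q35.EO
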